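import Pool.Agent.Y150.Lift.Glob

/-!
# MP_62d77c_ag: homologically trivial 1-cycles have orthogonal lifts
-/

universe u v w

namespace Pool.Agent.Results.MP_62d77c_ag.OneCycles

open Pool.Agent.Y150.Lift

/-- **Homologically trivial 1-cycles can be lifted orthogonally to vertical cycles.** Let `X` be the
model, in codimension `d - 1`, of a regular scheme `𝒳`, proper and flat of relative dimension
`d ≥ 3` over the ring of integers of a number field, such that for every place the localization of
`𝒳` has an alteration by a projective strictly semistable scheme, for which the Hodge index theorem
for divisors holds for the components of the special fibre and for their pairwise intersections (all
regular schemes have this property by the theorem of de Jong, the Hodge index theorem and the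
theorem of Matsusaka on the numerical and homological equivalence of divisors). Then every 1-cycle
on the generic fibre which is homologically equivalent to zero has a lift to `𝒳` whose intersection
numbers with all classes of codimension two supported in closed fibres are zero.

With the known cases of divisors and zero-cycles this settles the question for all `𝒳` of relative
dimension at most three; and it defines the height pairing of Beilinson and Bloch between the
homologically trivial cycles of codimension two and of dimension one on all smooth projective
varieties with a regular model. Nothing is assumed on the monodromy weight filtration, on the Tate
conjecture or on the standard conjectures. -/
theorem result {P : Type} (X : GlobalModel.{w} P) {d : ℕ} (hd : 3 ≤ d)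
    (hX : ∀ v, HasAlteration.{u, v, w} d (X.loc v)) : X.HasOrthogonalLifts :=
  X.lifts fun v => (hX v).lifts hd

end Pool.Agent.Results.MP_62d77c_ag.OneCycles
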